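import Pool.Agent.Lib.MP_c052b4_al.Mg.G025
import Pool.Agent.Lib.MP_c052b4_al.Mg.G023

/-!
# Theorem Z, part (ii) (TREES^n, helper78)
-/

set_option autoImplicit false
set_option linter.unusedVariables false

namespace Pool.Agent.Lib.MP_c052b4_al.MT

open CategoryTheory CategoryTheory.Limits CategoryTheory.Pretriangulated

universe u

section

universe v w

variable {C : Type w} [Category.{v} C] [Preadditive C]

theorem isIso_idem {M : C} (E Z Z' : M ⟶ M) (hE : E ≫ E = E) (hEZ : E ≫ Z = Z ≫ E)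
    (hZ : Z ≫ Z' = 𝟙 M) (hZ' : Z' ≫ Z = 𝟙 M) : IsIso (E ≫ Z + (𝟙 M - E)) := by
  have hEZ' : E ≫ Z' = Z' ≫ E := by
    have h1 : Z' ≫ (E ≫ Z) ≫ Z' = Z' ≫ (Z ≫ E) ≫ Z' := by rw [hEZ]
    rw [Category.assoc, hZ, Category.comp_id, Category.assoc, ← Category.assoc Z', hZ',
      Category.id_comp] at h1
    exact h1.symm
  have h0 : E ≫ (𝟙 M - E) = 0 := by
    rw [Preadditive.comp_sub, Category.comp_id, hE, sub_self]
  have h0' : (𝟙 M - E) ≫ E = 0 := by
    rw [Preadditive.sub_comp, Category.id_comp, hE, sub_self]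
  have h1' : (𝟙 M - E) ≫ (𝟙 M - E) = 𝟙 M - E := by
    rw [Preadditive.comp_sub, Category.comp_id, h0', sub_zero]
  refine ⟨E ≫ Z' + (𝟙 M - E), ?_, ?_⟩
  · rw [Preadditive.add_comp, Preadditive.comp_add, Preadditive.comp_add, h1',
      ← Category.assoc (𝟙 M - E), h0', zero_comp, zero_add, hEZ, Category.assoc Z E (𝟙 M - E), h0,
      comp_zero, add_zero, Category.assoc, ← Category.assoc E E, hE, hEZ', ← Category.assoc, hZ,
      Category.id_comp, add_sub_cancel]
  · rw [Preadditive.add_comp, Preadditive.comp_add, Preadditive.comp_add, h1',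
      ← Category.assoc (𝟙 M - E), h0', zero_comp, zero_add, hEZ', Category.assoc Z' E (𝟙 M - E), h0,
      comp_zero, add_zero, Category.assoc, ← Category.assoc E E, hE, hEZ, ← Category.assoc, hZ',
      Category.id_comp, add_sub_cancel]

variable [HasZeroObject C] [HasShift C ℤ] [∀ n : ℤ, (shiftFunctor C n).Additive]
  [Pretriangulated C]

/-- Replace the second object of a distinguished triangle. -/
theorem tri_iso₂ {X Y Y' Z : C} (f : X ⟶ Y) (g : Y ⟶ Z) (h : Z ⟶ X⟦(1 : ℤ)⟧)
    (hT : Triangle.mk f g h ∈ distTriang C) (t : Y' ⟶ Y) (ht : IsIso t) (f' : X ⟶ Y')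
    (hf : f = f' ≫ t) : Triangle.mk f' (t ≫ g) h ∈ distTriang C := by
  refine isomorphic_distinguished _ hT _ ?_
  let e : Y' ≅ Y := asIso t
  exact Triangle.isoMk _ _ (Iso.refl _) e (Iso.refl _)
    (by
      change f' ≫ t = 𝟙 _ ≫ f
      rw [hf, Category.id_comp])
    (by
      change (t ≫ g) ≫ 𝟙 _ = t ≫ g
      rw [Category.comp_id])
    (by
      change h ≫ (shiftFunctor _ (1 : ℤ)).map (𝟙 _) = 𝟙 _ ≫ h
      rw [CategoryTheory.Functor.map_id, Category.comp_id, Category.id_comp])

end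

variable {R : Type u} [Ring R] {G : Type u} [Group G] {L : Lbl G} {D : Type} {Ys : D → Dir G}

/-- Reduction modulo `z` of an extension. -/
theorem ev_ext (X : KV R L) :
    Nonempty ((kR L (Polynomial.constantCoeff : Polynomial R →+* R)).obj
      ((kR L (Polynomial.C : R →+* Polynomial R)).obj X) ≅ X) := by
  refine ⟨(HomotopyCategory.quotient (VCat R L) (ComplexShape.up ℤ)).mapIso
    (X := (((VCat.bc (Polynomial.constantCoeff : Polynomial R →+* R)).mapHomologicalComplex _).obj
      (((VCat.bc (Polynomial.C : R →+* Polynomial R)).mapHomologicalComplex _).obj X.as)))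
    (Y := X.as) (isoC (fun n => Iso.refl (X.as.X n)) fun n => ?_)⟩
  refine (Category.id_comp _).trans (Eq.trans ?_ (Category.comp_id _).symm)
  refine VCat.ext_e fun i => ?_
  refine Eq.trans ?_ (VCat.lin_bcMap_e (S' := R) Polynomial.constantCoeff
    (VCat.bcMap (Polynomial.C : R →+* Polynomial R) (X.as.d n (n + 1))) i).symm
  rw [VCat.lin_bcMap_e]
  refine Finsupp.ext fun j => MonoidAlgebra.coeff_injective (Finsupp.ext fun g => ?_)
  rw [VCat.bcVec_coeff, VCat.bcVec_coeff]
  exact (Polynomial.coeff_C_zero).symm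

theorem T_neg_central (R : Type u) [Ring R] (x : LaurentPolynomial R) :
    LaurentPolynomial.T (-1) * x = x * LaurentPolynomial.T (-1) :=
  (LaurentPolynomial.commute_T (-1) x).eq

theorem partii {A B : Set D} {a : D} {X' : KV R (UL Ys (A \ {a}))}
    {C' C'' : KV R (UL Ys A)} (ι e : C' ⟶ C'')
    (i : X' ⟶ (kL R (subHom Ys (A := A) (A' := A \ {a}) Set.sdiff_subset)).obj C')
    (r : (kL R (subHom Ys (A := A) (A' := A \ {a}) Set.sdiff_subset)).obj C' ⟶ X')
    (hir : i ≫ r = 𝟙 X')
    (hι : IsIso ((kL R (subHom Ys (A := A) (A' := A \ {a}) Set.sdiff_subset)).map ι))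
    (he : (kL R (subHom Ys (A := A) (A' := A \ {a}) Set.sdiff_subset)).map e =
      r ≫ i ≫ (kL R (subHom Ys (A := A) (A' := A \ {a}) Set.sdiff_subset)).map ι)
    (h' : FFK R (UL Ys A) C') (h'' : FFK R (UL Ys A) C'')
    (hB' : DB R Ys A B C') (hB'' : DB R Ys A B C'') :
    ∃ Lo : KV (Polynomial R) (UL Ys A), FFK (Polynomial R) (UL Ys A) Lo ∧
      DB (Polynomial R) Ys A B Lo ∧
      IsZero ((kR (UL Ys (A \ {a}))
        (Polynomial.toLaurent : Polynomial R →+* LaurentPolynomial R)).obj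
          ((kL (Polynomial R) (subHom Ys (A := A) (A' := A \ {a}) Set.sdiff_subset)).obj Lo)) ∧
      Nonempty ((kRes (UL Ys (A \ {a}))).obj
        ((kL (Polynomial R) (subHom Ys (A := A) (A' := A \ {a}) Set.sdiff_subset)).obj Lo) ≅ X') := by
  let p := kL R (subHom Ys (A := A) (A' := A \ {a}) Set.sdiff_subset)
  let pz := kL (Polynomial R) (subHom Ys (A := A) (A' := A \ {a}) Set.sdiff_subset)
  let ext := kR (UL Ys A) (Polynomial.C : R →+* Polynomial R)
  let ext' := kR (UL Ys (A \ {a})) (Polynomial.C : R →+* Polynomial R)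
  let loc' := kR (UL Ys (A \ {a})) (Polynomial.toLaurent : Polynomial R →+* LaurentPolynomial R)
  let z := fun (L : Lbl G) (X : KV (Polynomial R) L) => zK Polynomial.X (zX_central R) X
  obtain ⟨Lo, g, h, hT⟩ := distinguished_cocone_triangle
    (ext.map e ≫ z _ (ext.obj C'') + (ext.map ι - ext.map e))
  have hpT := pz.map_distinguished _ hT
  let E : ext'.obj (p.obj C') ⟶ ext'.obj (p.obj C') := ext'.map (r ≫ i)
  let φ : ext'.obj (p.obj C') ⟶ ext'.obj (p.obj C') := E ≫ z _ _ + (𝟙 _ - E)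
  have hEE : E ≫ E = E := by
    change ext'.map (r ≫ i) ≫ ext'.map (r ≫ i) = ext'.map (r ≫ i)
    rw [← Functor.map_comp, Category.assoc, ← Category.assoc i, hir, Category.id_comp]
  have hEz : E ≫ z _ _ = z _ _ ≫ E := (zK_nat (zX_central R) E).symm
  have hα : pz.map (ext.map e ≫ z _ (ext.obj C'') + (ext.map ι - ext.map e)) =
      φ ≫ ext'.map (p.map ι) := by
    have h1 : pz.map (ext.map e) = E ≫ ext'.map (p.map ι) := by
      refine (kL_kR_map Ys (Polynomial.C : R →+* Polynomial R) Set.sdiff_subset e).trans ?_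
      change ext'.map (p.map e) = ext'.map (r ≫ i) ≫ ext'.map (p.map ι)
      rw [← Functor.map_comp, Category.assoc]
      exact congrArg ext'.map he
    have h2 : pz.map (ext.map ι) = ext'.map (p.map ι) :=
      kL_kR_map Ys (Polynomial.C : R →+* Polynomial R) Set.sdiff_subset ι
    have h3 : pz.map (z _ (ext.obj C'')) = z _ _ := rfl
    rw [Functor.map_add, Functor.map_sub, Functor.map_comp, h3, h1, h2]
    change (E ≫ ext'.map (p.map ι)) ≫ z _ _ + (ext'.map (p.map ι) - E ≫ ext'.map (p.map ι)) =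
      (E ≫ z _ _ + (𝟙 _ - E)) ≫ ext'.map (p.map ι)
    rw [Preadditive.add_comp, Preadditive.sub_comp, Category.id_comp, Category.assoc,
      Category.assoc, ← zK_nat (zX_central R) (ext'.map (p.map ι))]
  have hι' : IsIso (ext'.map (p.map ι)) := by
    have h0 : IsIso (p.map ι) := hι
    infer_instance
  have hT₂ := tri_iso₂ _ _ _ hpT (ext'.map (p.map ι)) hι' φ hα
  refine ⟨Lo, ?_, ?_, ?_, ?_⟩
  · exact (FFK (Polynomial R) (UL Ys A)).ext_of_isTriangulatedClosed₃ _ hT (FFK_kR _ h')
      (FFK_kR _ h'')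
  · exact DB_cone _ hT (DB_kR _ hB') (DB_kR _ hB'')
  · have hl := loc'.map_distinguished _ hT₂
    refine Triangle.isZero₃_of_isIso₁ _ hl ?_
    change IsIso (loc'.map φ)
    have hT1 : Polynomial.toLaurent (Polynomial.X : Polynomial R) * LaurentPolynomial.T (-1) = 1 := by
      rw [Polynomial.toLaurent_X, ← LaurentPolynomial.T_add]
      exact LaurentPolynomial.T_zero
    have hT2 : LaurentPolynomial.T (-1) * Polynomial.toLaurent (Polynomial.X : Polynomial R) = 1 := by
      rw [Polynomial.toLaurent_X, ← LaurentPolynomial.T_add]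
      exact LaurentPolynomial.T_zero
    have hz : loc'.map (z _ (ext'.obj (p.obj C'))) =
        zK (Polynomial.toLaurent Polynomial.X) (zT_central R) _ :=
      kR_zK (zX_central R) _ (zT_central R) _
    have hφ : loc'.map φ = loc'.map E ≫ loc'.map (z _ (ext'.obj (p.obj C'))) +
        (𝟙 _ - loc'.map E) := by
      change loc'.map (E ≫ z _ _ + (𝟙 _ - E)) = _
      rw [Functor.map_add, Functor.map_sub, Functor.map_comp, CategoryTheory.Functor.map_id]
    rw [hφ]
    refine isIso_idem _ _ (zK (LaurentPolynomial.T (-1)) (T_neg_central R) _) ?_ ?_ ?_ ?_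
    · rw [← Functor.map_comp, hEE]
    · rw [← Functor.map_comp, ← Functor.map_comp, hEz]
    · rw [hz]
      exact zK_comp _ _ hT1 _
    · rw [hz]
      exact zK_comp _ _ hT2 _
  · obtain ⟨g₁, h₁, hT₁⟩ := res_triangle (R := R) (L := UL Ys (A \ {a}))
      (((VCat.bc (Polynomial.C : R →+* Polynomial R)).mapHomologicalComplex _).obj X'.as)
    have hr := (kRes (R := R) (UL Ys (A \ {a}))).map_distinguished _ hT₂
    obtain ⟨e₁⟩ := ev_ext X'
    have hiE : ext'.map i ≫ E = ext'.map i := by
      change ext'.map i ≫ ext'.map (r ≫ i) = ext'.map i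
      rw [← Functor.map_comp, ← Category.assoc, hir, Category.id_comp]
    have hEr : E ≫ ext'.map r = ext'.map r := by
      change ext'.map (r ≫ i) ≫ ext'.map r = ext'.map r
      rw [← Functor.map_comp, Category.assoc, hir, Category.comp_id]
    have c1 : ext'.map i ≫ ext'.map r = 𝟙 _ := by
      rw [← Functor.map_comp, hir]
      exact ext'.map_id _
    have c2 : z _ (ext'.obj X') ≫ ext'.map i = ext'.map i ≫ φ := by
      change z _ (ext'.obj X') ≫ ext'.map i = ext'.map i ≫ (E ≫ z _ _ + (𝟙 _ - E))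
      rw [Preadditive.comp_add, Preadditive.comp_sub, ← Category.assoc, hiE, Category.comp_id,
        sub_self, add_zero]
      exact zK_nat (zX_central R) (ext'.map i)
    have c3 : φ ≫ ext'.map r = ext'.map r ≫ z _ (ext'.obj X') := by
      change (E ≫ z _ _ + (𝟙 _ - E)) ≫ ext'.map r = ext'.map r ≫ z _ (ext'.obj X')
      rw [Preadditive.add_comp, Preadditive.sub_comp, hEr, Category.id_comp, sub_self, add_zero,
        hEz, Category.assoc, hEr]
      exact zK_nat (zX_central R) (ext'.map r)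
    have c4 : φ - φ ≫ ext'.map r ≫ ext'.map i = 𝟙 _ - ext'.map r ≫ ext'.map i := by
      have h5 : ext'.map r ≫ ext'.map i = E := (Functor.map_comp _ _ _).symm
      rw [h5]
      change (E ≫ z _ _ + (𝟙 _ - E)) - (E ≫ z _ _ + (𝟙 _ - E)) ≫ E = 𝟙 _ - E
      rw [Preadditive.add_comp, Preadditive.sub_comp, hEE, Category.id_comp, sub_self, add_zero,
        Category.assoc, ← hEz, ← Category.assoc, hEE]
      abel
    obtain ⟨e₂⟩ := cone_iso_of_retract
      ((kRes (R := R) (UL Ys (A \ {a}))).map (z _ (ext'.obj X')))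
      ((kRes (R := R) (UL Ys (A \ {a}))).map φ) g₁ h₁ _ _ hT₁ hr
      ((kRes (R := R) (UL Ys (A \ {a}))).map (ext'.map i))
      ((kRes (R := R) (UL Ys (A \ {a}))).map (ext'.map r))
      (by rw [← Functor.map_comp, c1]; exact CategoryTheory.Functor.map_id _ _)
      (by rw [← Functor.map_comp, ← Functor.map_comp, c2])
      (by rw [← Functor.map_comp, ← Functor.map_comp, c3])
      (by
        rw [← Functor.map_comp, ← Functor.map_comp, ← Functor.map_sub, c4, Functor.map_sub]
        exact congrArg₂ (· - ·) (CategoryTheory.Functor.map_id _ _) rfl)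
    exact ⟨e₂ ≪≫ e₁⟩

end Pool.Agent.Lib.MP_c052b4_al.MT
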